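import Mathlib
import Pool.Agent.Helper22.GC.Bridge
import Pool.Agent.Helper60.GP.LocMain

/-!
# Large values of both signs of the circle error in short intervals, or a very negative value

If `P(R) ≥ - B √R` for all radii `R` in `[X, X Y]`, then every interval `[Z, Z + X Y]` with `Z ≥ 2`
contains radii at which `P(R) / √R` is at least `c log Y (log log Y) ^ (3 * 2 ^ (1/3) - 4) / B ^ 3`, and
radii at which it is at most the negative of this. There is no hypothesis.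
-/

namespace Pool.Agent.Results.MP_fb29e9_nt.LocalProductInequality

/-- The error term `P(R) = F(R) - π R²` of the circle problem. -/
noncomputable def circleError (R : ℝ) : ℝ :=
  (Nat.card {p : ℤ × ℤ // (p.1 : ℝ) ^ 2 + (p.2 : ℝ) ^ 2 ≤ R ^ 2} : ℝ) - Real.pi * R ^ 2

theorem result : ∃ c : ℝ, 0 < c ∧ ∃ Y₀ : ℝ, ∀ X Y B : ℝ, 2 ≤ X → Y₀ ≤ Y →
    (∀ R : ℝ, X ≤ R → R ≤ X * Y → -B * √R ≤ circleError R) →
    ∀ Z : ℝ, 2 ≤ Z →
      (∃ R : ℝ, Z ≤ R ∧ R ≤ Z + X * Y ∧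
        c * Real.log Y * (Real.log (Real.log Y)) ^ (3 * (2 : ℝ) ^ (1 / 3 : ℝ) - 4) / B ^ 3 * √R
          ≤ circleError R) ∧
      (∃ R : ℝ, Z ≤ R ∧ R ≤ Z + X * Y ∧
        c * Real.log Y * (Real.log (Real.log Y)) ^ (3 * (2 : ℝ) ^ (1 / 3 : ℝ) - 4) / B ^ 3 * √R
          ≤ -circleError R) := by
  have hPe : ∀ R, circleError R = Pool.Agent.Helper22.GC.Pe R := fun R => by
    rw [Pool.Agent.Helper22.GC.Pe_eq, circleError]
  simp only [hPe, neg_mul]
  obtain ⟨c, hc, Y₀, h⟩ := Pool.Agent.Helper60.GP.local_main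
  refine ⟨c / 2, by linarith, max Y₀ 16, fun X Y B hX hY hB Z hZ => ?_⟩
  have hY0 : Y₀ ≤ Y := (le_max_left _ _).trans hY
  have hY16 : 16 ≤ Y := (le_max_right _ _).trans hY
  have hl1 : 1 < Real.log Y := by
    rw [Real.lt_log_iff_exp_lt (by linarith)]
    linarith [Real.exp_one_lt_d9]
  have hl2 : 0 < Real.log (Real.log Y) := Real.log_pos hl1
  obtain ⟨g, hg⟩ : ∃ g : ℝ, g = Real.log Y *
      (Real.log (Real.log Y)) ^ (3 * (2 : ℝ) ^ (1 / 3 : ℝ) - 4) := ⟨_, rfl⟩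
  have hg0 : 0 < g := by
    rw [hg]
    exact mul_pos (by linarith) (Real.rpow_pos_of_pos hl2 _)
  have key : ∀ s : ℝ, (s = 1 ∨ s = -1) → ∃ R : ℝ, Z ≤ R ∧ R ≤ Z + X * Y ∧
      c / 2 * g / B ^ 3 * √R ≤ s * Pool.Agent.Helper22.GC.Pe R := by
    intro s hs
    by_contra hcon
    push Not at hcon
    have h1 := h X Y B hX hY0 hB s Z (c / 2 * g / B ^ 3) hs hZ
      (fun R h1 h2 => (hcon R h1 h2).le)
    have h2 : c * Real.log Y * (Real.log (Real.log Y)) ^ (3 * Pool.Agent.Helper53.OM.kap - 4)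
        = c * g := by
      rw [hg, Pool.Agent.Helper53.OM.kap, mul_assoc]
    rw [h2] at h1
    have h3 : 0 < c * g := mul_pos hc hg0
    rcases eq_or_ne (B ^ 3) 0 with h4 | h4
    · rw [h4, mul_zero] at h1
      linarith
    · rw [div_mul_cancel₀ _ h4] at h1
      linarith
  have e : c / 2 * Real.log Y * (Real.log (Real.log Y)) ^ (3 * (2 : ℝ) ^ (1 / 3 : ℝ) - 4)
      = c / 2 * g := by
    rw [hg, mul_assoc]
  simp only [e]
  constructor
  · obtain ⟨R, h1, h2, h3⟩ := key 1 (Or.inl rfl)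
    exact ⟨R, h1, h2, by linarith⟩
  · obtain ⟨R, h1, h2, h3⟩ := key (-1) (Or.inr rfl)
    exact ⟨R, h1, h2, by linarith⟩

end Pool.Agent.Results.MP_fb29e9_nt.LocalProductInequality
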