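import Mathlib
import Pool.Agent.Helper22.GC.Bridge
import Pool.Agent.Helper27.GPF.Fin

/-!
# A product inequality for the extreme values of the error term of the circle problem

If `- B √R ≤ P(R) ≤ A √R` for all radii `R` in `[X, X Y]`, then `A B ^ 3` is at least
`c log Y (log log Y) ^ (3 * 2 ^ (1/3) - 4)`, with no hypothesis. So the positive and the negative values
of `P(R) / √R` cannot both be small.
-/

namespace Pool.Agent.Helper60.Keep.ProductInequality

/-- The error term `P(R) = F(R) - π R²` of the circle problem. -/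
noncomputable def circleError (R : ℝ) : ℝ :=
  (Nat.card {p : ℤ × ℤ // (p.1 : ℝ) ^ 2 + (p.2 : ℝ) ^ 2 ≤ R ^ 2} : ℝ) - Real.pi * R ^ 2

theorem result : ∃ c : ℝ, 0 < c ∧ ∃ Y₀ : ℝ, ∀ X Y A B : ℝ, 2 ≤ X → Y₀ ≤ Y →
    (∀ R : ℝ, X ≤ R → R ≤ X * Y → -B * √R ≤ circleError R ∧ circleError R ≤ A * √R) →
    c * Real.log Y * (Real.log (Real.log Y)) ^ (3 * (2 : ℝ) ^ (1 / 3 : ℝ) - 4) ≤ A * B ^ 3 := by
  have hPe : ∀ R, circleError R = Pool.Agent.Helper22.GC.Pe R := fun R => by
    rw [Pool.Agent.Helper22.GC.Pe_eq, circleError]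
  simp only [hPe, neg_mul]
  exact Pool.Agent.Helper60.GP.product_main

end Pool.Agent.Helper60.Keep.ProductInequality
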